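import Pool.Agent.H197R2.PG7

/-! The sequence of the primes. -/

set_option autoImplicit false

open Finset Filter Topology

namespace Pool.Agent.Helper29.BE

open Pool.Agent.H197R2.PG

/-- the `k`-th prime -/
noncomputable def P (k : ℕ) : ℕ := Nat.nth Nat.Prime (k - 1)

lemma P_prime (k : ℕ) : (P k).Prime := Nat.prime_nth_prime _

lemma P_mono {a b : ℕ} (h : a ≤ b) : P a ≤ P b :=
  (Nat.nth_monotone Nat.infinite_setOfPred_prime) (by omega)

lemma P_inj {a b : ℕ} (ha : 1 ≤ a) (hb : 1 ≤ b) (h : P a = P b) : a = b := by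
  have := Nat.nth_injective Nat.infinite_setOfPred_prime h
  omega

/-- `p_k ≤ v` if `k ≤ π(v)` -/
lemma P_le {k v : ℕ} (hk : 1 ≤ k) (h : k ≤ Nat.primeCounting v) : P k ≤ v := by
  by_contra hcon
  push Not at hcon
  have h1 : Nat.primeCounting v < k := by
    unfold Nat.primeCounting Nat.primeCounting'
    have h2 : Nat.count Nat.Prime (v + 1) ≤ Nat.count Nat.Prime (P k) :=
      Nat.count_monotone _ (by omega)
    have h3 : Nat.count Nat.Prime (P k) = k - 1 := by
      unfold P
      exact Nat.count_nth_of_infinite Nat.infinite_setOfPred_prime _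
    omega
  omega

lemma P_odd {k : ℕ} (hk : 2 ≤ k) : 3 ≤ P k ∧ P k % 2 = 1 := by
  have h1 : P 1 < P k := by
    unfold P
    exact Nat.nth_strictMono Nat.infinite_setOfPred_prime (by omega)
  have h2 : 2 ≤ P 1 := (P_prime 1).two_le
  refine ⟨by omega, ?_⟩
  rcases (P_prime k).eq_two_or_odd with h | h
  · omega
  · exact h

lemma P_le_sq : ∀ᶠ N : ℕ in atTop, P N ≤ N ^ 2 := by
  have h1 := (Real.isLittleO_pow_log_id_atTop (n := 2)).bound (by norm_num : (0 : ℝ) < 1 / 4)
  have h2 := (tendsto_natCast_atTop_atTop (R := ℝ)).eventually h1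
  have h3 : Tendsto (fun N : ℕ => N ^ 2) atTop atTop := tendsto_pow_atTop (by norm_num)
  filter_upwards [h2, h3.eventually pi_lower, eventually_ge_atTop 2] with N h4 h5 hN
  have hN2 : (2 : ℝ) ≤ N := by exact_mod_cast hN
  apply P_le (by omega)
  have hlog : 0 < Real.log N := Real.log_pos (by linarith)
  rw [Real.norm_of_nonneg (by positivity)] at h4
  simp only [id] at h4
  rw [Real.norm_of_nonneg (by linarith)] at h4
  push_cast at h5
  rw [Real.log_pow] at h5
  push_cast at h5
  have h6 : (N : ℝ) ≤ Nat.primeCounting (N ^ 2) := by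
    have h7 : (0 : ℝ) ≤ Nat.primeCounting (N ^ 2) := Nat.cast_nonneg _
    have h8 : (Nat.primeCounting (N ^ 2) : ℝ) * (2 * Real.log N) ^ 2 ≤
        (Nat.primeCounting (N ^ 2) : ℝ) * N := by
      apply mul_le_mul_of_nonneg_left _ h7
      nlinarith
    have h9 : (N : ℝ) * N ≤ (Nat.primeCounting (N ^ 2) : ℝ) * N := by nlinarith
    exact le_of_mul_le_mul_right h9 (by linarith)
  exact_mod_cast h6

end Pool.Agent.Helper29.BE
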