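import Pool.Agent.Helper29.BE.Main
import Pool.Agent.Helper29.BE.Pr

/-! Convenient forms of the theorem on vectors of shifts. -/

set_option autoImplicit false

open Finset Filter Topology

namespace Pool.Agent.Helper29.BE

open Pool.Agent.H197R2.PG

/-- `b`: the number `a + h` is prime; not `b`: the number `h - a` is a (positive) prime -/
def PS (b : Bool) (a h : ℕ) : Prop := if b = true then (a + h).Prime else (a < h ∧ (h - a).Prime)

theorem shiftsV (d : ℕ) (hd : 1 ≤ d) : ∃ c : ℝ, 0 < c ∧ ∃ Y₀ : ℕ, ∀ Y : ℕ, Y₀ ≤ Y →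
    ∀ H : ℕ, Y ^ 17 ≤ H → ∀ (T : Finset ℕ) (a : Fin d → ℕ → ℕ) (s : Fin d → Bool),
    (∀ i, Set.InjOn (a i) T) → (∀ i, ∀ t ∈ T, Odd (a i t) ∧ a i t ≤ Y) →
    Real.log H ^ d ≤ #T → c * H ^ d / Real.log (Real.log Y) ^ d ≤ #(Sh H T a s) := by
  classical
  obtain ⟨c, hc, Y₀, h⟩ := main d 1 hd
  have hlogt : Tendsto (fun x : ℕ => Real.log (x : ℝ)) atTop atTop :=
    Real.tendsto_log_atTop.comp tendsto_natCast_atTop_atTop
  have hll : Tendsto (fun x : ℕ => Real.log (Real.log (x : ℝ))) atTop atTop :=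
    Real.tendsto_log_atTop.comp hlogt
  obtain ⟨Y₁, hY₁⟩ := eventually_atTop.1 ((hlogt.eventually_ge_atTop 4).and
    ((hll.eventually_ge_atTop 1).and (eventually_ge_atTop (Y₀ + 2))))
  refine ⟨c / 2 ^ d, by positivity, Y₁, fun Y hY H hH T a s hinj hodd hT => ?_⟩
  obtain ⟨g1, g2, g3⟩ := hY₁ Y hY
  have hY0 : (0 : ℝ) < Y := by
    have : 0 < Y := by omega
    exact_mod_cast this
  set k : ℕ := ⌈Real.log (2 * Y)⌉₊ + 3 with hk
  have hlog2 : Real.log (2 * Y) ≤ Real.log Y + 1 := by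
    rw [Real.log_mul (by norm_num) hY0.ne']
    have := Real.log_two_lt_d9
    linarith
  have hlog0 : 0 ≤ Real.log (2 * (Y : ℝ)) := by
    apply Real.log_nonneg
    have : (1 : ℝ) ≤ Y := by
      have : 1 ≤ Y := by omega
      exact_mod_cast this
    linarith
  have hkle : (k : ℝ) ≤ Real.log Y + 5 := by
    have := Nat.ceil_lt_add_one hlog0
    rw [hk]
    push_cast
    linarith
  have hk3 : (3 : ℝ) ≤ k := by
    have : 3 ≤ k := by omega
    exact_mod_cast this
  have hlk : Real.log k ≤ 2 * Real.log (Real.log Y) := by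
    have h1 : (k : ℝ) ≤ Real.log Y ^ 2 := by nlinarith
    have h2 : Real.log k ≤ Real.log (Real.log Y ^ 2) := Real.log_le_log (by linarith) h1
    rw [Real.log_pow] at h2
    exact_mod_cast h2
  have hlk0 : 0 < Real.log k := Real.log_pos (by linarith)
  have hHY : Y ≤ H := (Nat.le_self_pow (by norm_num) Y).trans hH
  have hT1 : (1 : ℝ) ≤ #T := by
    have h1 : (1 : ℝ) ≤ Real.log H := by
      have h2 : Real.log Y ≤ Real.log H := Real.log_le_log hY0 (by exact_mod_cast hHY)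
      linarith
    exact (one_le_pow₀ h1).trans hT
  have h1 := h Y (by omega) H hH k T a s (by omega) hinj hodd hT (by
    have h2 : 2 * (Y : ℝ) ≤ Real.exp (((1 : ℕ) : ℝ) * k) := by
      rw [Nat.cast_one, one_mul]
      have h3 : Real.log (2 * Y) ≤ k := by
        have := Nat.le_ceil (Real.log (2 * Y))
        rw [hk]
        push_cast
        linarith
      calc 2 * (Y : ℝ) = Real.exp (Real.log (2 * Y)) := (Real.exp_log (by positivity)).symm
        _ ≤ _ := Real.exp_le_exp.2 h3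
    calc 2 * (Y : ℝ) ≤ Real.exp (((1 : ℕ) : ℝ) * k) := h2
      _ = Real.exp (((1 : ℕ) : ℝ) * k) * 1 := (mul_one _).symm
      _ ≤ _ := mul_le_mul_of_nonneg_left hT1 (Real.exp_pos _).le)
  refine le_trans ?_ h1
  have e1 : c / 2 ^ d * (H : ℝ) ^ d / Real.log (Real.log Y) ^ d =
      c * H ^ d / (2 * Real.log (Real.log Y)) ^ d := by
    rw [mul_pow]
    have : Real.log (Real.log Y) ^ d ≠ 0 := by
      apply pow_ne_zero
      linarith
    field_simp
  rw [e1]
  apply div_le_div_of_nonneg_left (by positivity) (by positivity)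
  exact pow_le_pow_left₀ hlk0.le hlk d

/-- values bounded by a power of `n` -/
theorem shiftsN (d m : ℕ) (hd : 1 ≤ d) (hm : 1 ≤ m) : ∃ c : ℝ, 0 < c ∧ ∃ n₀ : ℕ, ∀ n : ℕ,
    n₀ ≤ n → ∀ H : ℕ, n ^ (17 * m) ≤ H → ∀ (T : Finset ℕ) (a : Fin d → ℕ → ℕ)
    (s : Fin d → Bool), (∀ i, Set.InjOn (a i) T) →
    (∀ i, ∀ t ∈ T, Odd (a i t) ∧ a i t ≤ n ^ m) →
    Real.log H ^ d ≤ #T → c * H ^ d / Real.log (Real.log n) ^ d ≤ #(Sh H T a s) := by
  classical
  obtain ⟨c, hc, Y₀, h⟩ := shiftsV d hd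
  have hlogt : Tendsto (fun x : ℕ => Real.log (x : ℝ)) atTop atTop :=
    Real.tendsto_log_atTop.comp tendsto_natCast_atTop_atTop
  have hll : Tendsto (fun x : ℕ => Real.log (Real.log (x : ℝ))) atTop atTop :=
    Real.tendsto_log_atTop.comp hlogt
  obtain ⟨n₀, hn₀⟩ := eventually_atTop.1 ((hlogt.eventually_ge_atTop (m : ℝ)).and
    ((hll.eventually_ge_atTop 1).and (eventually_ge_atTop (Y₀ + 2))))
  refine ⟨c / 2 ^ d, by positivity, n₀, fun n hn H hH T a s hinj hodd hT => ?_⟩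
  obtain ⟨g1, g2, g3⟩ := hn₀ n hn
  have hn0 : (0 : ℝ) < n := by
    have : 0 < n := by omega
    exact_mod_cast this
  have hm0 : (0 : ℝ) < m := by exact_mod_cast hm
  have hlogn : 0 < Real.log n := by linarith
  have hYn : n ≤ n ^ m := Nat.le_self_pow (by omega) n
  have h1 := h (n ^ m) (by omega) H (by rw [← pow_mul, mul_comm]; exact hH) T a s hinj hodd hT
  refine le_trans ?_ h1
  have h2 : Real.log (Real.log ((n ^ m : ℕ) : ℝ)) ≤ 2 * Real.log (Real.log n) := by
    push_cast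
    rw [Real.log_pow, Real.log_mul hm0.ne' hlogn.ne']
    have := Real.log_le_log hm0 g1
    linarith
  have h3 : 0 < Real.log (Real.log ((n ^ m : ℕ) : ℝ)) := by
    push_cast
    rw [Real.log_pow, Real.log_mul hm0.ne' hlogn.ne']
    have : 0 ≤ Real.log (m : ℝ) := Real.log_natCast_nonneg m
    linarith
  have e1 : c / 2 ^ d * (H : ℝ) ^ d / Real.log (Real.log n) ^ d =
      c * H ^ d / (2 * Real.log (Real.log n)) ^ d := by
    rw [mul_pow]
    have : Real.log (Real.log n) ^ d ≠ 0 := by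
      apply pow_ne_zero
      linarith
    field_simp
  rw [e1]
  apply div_le_div_of_nonneg_left (by positivity) (by positivity)
  exact pow_le_pow_left₀ h3.le h2 d

/-- sets which are dense up to a power of the logarithm -/
theorem shiftsD (d B : ℕ) (hd : 1 ≤ d) : ∃ c : ℝ, 0 < c ∧ ∃ n₀ : ℕ, ∀ n : ℕ,
    n₀ ≤ n → ∀ Y H : ℕ, n ≤ Y → Y ^ 17 ≤ H → ∀ (T : Finset ℕ) (a : Fin d → ℕ → ℕ)
    (s : Fin d → Bool), (∀ i, Set.InjOn (a i) T) →
    (∀ i, ∀ t ∈ T, Odd (a i t) ∧ a i t ≤ Y) →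
    Real.log H ^ d ≤ #T → 2 * (Y : ℝ) ≤ Real.log n ^ B * #T →
    c * H ^ d / Real.log (Real.log (Real.log n)) ^ d ≤ #(Sh H T a s) := by
  classical
  obtain ⟨c, hc, Y₀, h⟩ := main d B hd
  have hlogt : Tendsto (fun x : ℕ => Real.log (x : ℝ)) atTop atTop :=
    Real.tendsto_log_atTop.comp tendsto_natCast_atTop_atTop
  have hll : Tendsto (fun x : ℕ => Real.log (Real.log (x : ℝ))) atTop atTop :=
    Real.tendsto_log_atTop.comp hlogt
  have hlll : Tendsto (fun x : ℕ => Real.log (Real.log (Real.log (x : ℝ)))) atTop atTop :=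
    Real.tendsto_log_atTop.comp hll
  obtain ⟨n₀, hn₀⟩ := eventually_atTop.1 ((hlogt.eventually_ge_atTop 1).and
    ((hll.eventually_ge_atTop 3).and ((hlll.eventually_ge_atTop 1).and
      (eventually_ge_atTop (Y₀ + 2)))))
  refine ⟨c / 2 ^ d, by positivity, n₀, fun n hn Y H hnY hH T a s hinj hodd hT hT2 => ?_⟩
  obtain ⟨g0, g1, g2, g3⟩ := hn₀ n hn
  set l : ℝ := Real.log (Real.log n) with hl
  set k : ℕ := ⌈l⌉₊ + 3 with hk
  have hkle : (k : ℝ) ≤ l + 4 := by
    have := Nat.ceil_lt_add_one (by linarith : 0 ≤ l)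
    rw [hk]
    push_cast
    linarith
  have hk3 : (3 : ℝ) ≤ k := by
    have : 3 ≤ k := by omega
    exact_mod_cast this
  have hlk : Real.log k ≤ 2 * Real.log l := by
    have h1 : (k : ℝ) ≤ l ^ 2 := by nlinarith
    have h2 : Real.log k ≤ Real.log (l ^ 2) := Real.log_le_log (by linarith) h1
    rw [Real.log_pow] at h2
    exact_mod_cast h2
  have hlk0 : 0 < Real.log k := Real.log_pos (by linarith)
  have h1 := h Y (by omega) H hH k T a s (by omega) hinj hodd hT (by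
    refine hT2.trans ?_
    apply mul_le_mul_of_nonneg_right _ (Nat.cast_nonneg _)
    have h2 : l ≤ k := by
      have := Nat.le_ceil l
      rw [hk]
      push_cast
      linarith
    calc Real.log n ^ B = Real.exp (B * l) := by
          rw [Real.exp_nat_mul, hl, Real.exp_log (by linarith)]
      _ ≤ Real.exp (B * k) := by
          apply Real.exp_le_exp.2
          exact mul_le_mul_of_nonneg_left h2 (Nat.cast_nonneg _))
  refine le_trans ?_ h1
  have e1 : c / 2 ^ d * (H : ℝ) ^ d / Real.log l ^ d = c * H ^ d / (2 * Real.log l) ^ d := by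
    rw [mul_pow]
    have : Real.log l ^ d ≠ 0 := by
      apply pow_ne_zero
      linarith
    field_simp
  rw [e1]
  apply div_le_div_of_nonneg_left (by positivity) (by positivity)
  exact pow_le_pow_left₀ hlk0.le hlk d

/-- the elements of `Sh`, counted in a larger set -/
lemma card_le {d : ℕ} (H : ℕ) (T : Finset ℕ) (a : Fin d → ℕ → ℕ) (s : Fin d → Bool)
    (R : (Fin d → ℕ) → Prop)
    (hR : ∀ h : Fin d → ℕ, ∀ t ∈ T, (∀ i, PS (s i) (a i t) (h i)) → R h) :
    #(Sh H T a s) ≤ {h : Fin d → ℕ | (∀ i, 1 ≤ h i ∧ h i ≤ H ∧ Even (h i)) ∧ R h}.ncard := by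
  classical
  rw [← Set.ncard_coe_finset]
  apply Set.ncard_le_ncard
  · intro h hh
    rw [mem_coe] at hh
    unfold Sh at hh
    rw [mem_filter, Fintype.mem_piFinset] at hh
    obtain ⟨h1, t, ht, h2⟩ := hh
    refine ⟨fun i => ?_, hR h t ht h2⟩
    have h3 := h1 i
    rw [mem_filter, mem_Icc] at h3
    exact ⟨h3.1.1, h3.1.2, h3.2⟩
  · apply (Finset.finite_toSet (Fintype.piFinset (fun _ : Fin d => Icc 1 H))).subset
    rintro h ⟨h1, -⟩
    rw [mem_coe, Fintype.mem_piFinset]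
    intro i
    rw [mem_Icc]
    exact ⟨(h1 i).1, (h1 i).2.1⟩

lemma P_strict {a b : ℕ} (ha : 1 ≤ a) (h : a < b) : P a < P b := by
  unfold P
  exact Nat.nth_strictMono Nat.infinite_setOfPred_prime (by omega)

lemma le_P (k : ℕ) : k ≤ P k := by
  unfold P
  have := Nat.add_two_le_nth_prime (k - 1)
  omega

end Pool.Agent.Helper29.BE
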