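import Pool.Agent.Helper29.BE.Cor

/-! The `n`-th prime is at most `n (log n) ^ 3`, and the prime with index the `n`-th prime at most
`n (log n) ^ 7`. -/

set_option autoImplicit false

open Finset Filter Topology

namespace Pool.Agent.Helper29.BE

open Pool.Agent.H197R2.PG

lemma tLog : Tendsto (fun N : ℕ => Real.log (N : ℝ)) atTop atTop :=
  Real.tendsto_log_atTop.comp tendsto_natCast_atTop_atTop

lemma P_le_log : ∀ᶠ N : ℕ in atTop, (P N : ℝ) ≤ N * Real.log N ^ 3 := by
  have h1 := (isLittleO_log_rpow_rpow_atTop (s := (1 : ℝ)) (3 : ℝ) (by norm_num)).bound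
    (by norm_num : (0 : ℝ) < 1)
  have h2 := (tendsto_natCast_atTop_atTop (R := ℝ)).eventually h1
  have ht : Tendsto (fun N : ℕ => ⌊(N : ℝ) * Real.log N ^ 3⌋₊) atTop atTop := by
    apply tendsto_nat_floor_atTop.comp
    apply tendsto_atTop_mono' _ _ (tendsto_natCast_atTop_atTop (R := ℝ))
    filter_upwards [tLog.eventually_ge_atTop 1] with N hN
    have h3 : (1 : ℝ) ≤ Real.log N ^ 3 := one_le_pow₀ hN
    nlinarith [Nat.cast_nonneg (α := ℝ) N]
  filter_upwards [h2, ht.eventually pi_lower, tLog.eventually_ge_atTop 8,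
    eventually_ge_atTop 2] with N h3 h4 h5 hN
  have hN2 : (2 : ℝ) ≤ N := by exact_mod_cast hN
  have hlog0 : 0 < Real.log (N : ℝ) := by linarith
  set y : ℕ := ⌊(N : ℝ) * Real.log N ^ 3⌋₊ with hy
  have hy1 : (y : ℝ) ≤ N * Real.log N ^ 3 := Nat.floor_le (by positivity)
  have hy2 : (N : ℝ) * Real.log N ^ 3 < y + 1 := Nat.lt_floor_add_one _
  refine le_trans ?_ hy1
  apply Nat.cast_le.2
  apply P_le (by omega)
  rw [Real.norm_of_nonneg (Real.rpow_nonneg hlog0.le _),
    Real.norm_of_nonneg (by positivity), one_mul, Real.rpow_one] at h3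
  have h3' : Real.log (N : ℝ) ^ 3 ≤ N := by
    have e1 : Real.log (N : ℝ) ^ (3 : ℝ) = Real.log N ^ 3 := by
      rw [← Real.rpow_natCast]
      norm_num
    rwa [e1] at h3
  have hyN : (y : ℝ) ≤ (N : ℝ) ^ 2 := by
    calc (y : ℝ) ≤ N * Real.log N ^ 3 := hy1
      _ ≤ N * N := mul_le_mul_of_nonneg_left h3' (by linarith)
      _ = (N : ℝ) ^ 2 := by ring
  have hpow8 : (512 : ℝ) ≤ Real.log N ^ 3 := by
    calc (512 : ℝ) = 8 ^ 3 := by norm_num
      _ ≤ Real.log N ^ 3 := pow_le_pow_left₀ (by norm_num) h5 3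
  have hy0 : (1 : ℝ) ≤ y := by
    have h6 : (2 : ℝ) * 1 ≤ N * Real.log N ^ 3 :=
      mul_le_mul hN2 (by linarith) (by norm_num) (Nat.cast_nonneg N)
    linarith
  have hly : Real.log y ≤ 2 * Real.log N := by
    have h6 := Real.log_le_log (by linarith) hyN
    rw [Real.log_pow] at h6
    exact_mod_cast h6
  have hly0 : 0 ≤ Real.log (y : ℝ) := Real.log_nonneg hy0
  have h7 : (y : ℝ) ≤ Nat.primeCounting y * (2 * Real.log N) ^ 2 := by
    refine h4.trans ?_
    apply mul_le_mul_of_nonneg_left _ (Nat.cast_nonneg _)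
    exact pow_le_pow_left₀ hly0 hly 2
  have h8 : (N : ℝ) * (2 * Real.log N) ^ 2 ≤ Nat.primeCounting y * (2 * Real.log N) ^ 2 := by
    refine le_trans ?_ h7
    have e1 : (N : ℝ) * Real.log N ^ 3 = N * Real.log N ^ 2 * Real.log N := by ring
    have e2 : (N : ℝ) * (2 * Real.log N) ^ 2 = 4 * (N * Real.log N ^ 2) := by ring
    have h9 : (1 : ℝ) ≤ N * Real.log N ^ 2 := by
      have : (1 : ℝ) ≤ Real.log N ^ 2 := one_le_pow₀ (by linarith)
      nlinarith
    have h11 : (N : ℝ) * Real.log N ^ 2 * 8 ≤ N * Real.log N ^ 2 * Real.log N :=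
      mul_le_mul_of_nonneg_left h5 (by positivity)
    rw [e2]
    linarith
  have h10 : (N : ℝ) ≤ Nat.primeCounting y := le_of_mul_le_mul_right h8 (by positivity)
  exact_mod_cast h10

lemma PP_le_log : ∀ᶠ N : ℕ in atTop, (P (P N) : ℝ) ≤ N * Real.log N ^ 7 := by
  have tP : Tendsto P atTop atTop := tendsto_atTop_mono le_P tendsto_id
  filter_upwards [P_le_log, P_le_sq, tP.eventually P_le_log, tLog.eventually_ge_atTop 8,
    eventually_ge_atTop 2] with N h1 h2 h3 h4 hN
  have hN0 : (0 : ℝ) < N := by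
    have : 0 < N := by omega
    exact_mod_cast this
  have hP0 : (0 : ℝ) < P N := by exact_mod_cast (P_prime N).pos
  have hlP : Real.log (P N) ≤ 2 * Real.log N := by
    have h5 : (P N : ℝ) ≤ (N : ℝ) ^ 2 := by exact_mod_cast h2
    have h6 := Real.log_le_log hP0 h5
    rw [Real.log_pow] at h6
    exact_mod_cast h6
  have hlP0 : 0 ≤ Real.log (P N : ℝ) := Real.log_natCast_nonneg _
  calc (P (P N) : ℝ) ≤ P N * Real.log (P N) ^ 3 := h3
    _ ≤ (N * Real.log N ^ 3) * (2 * Real.log N) ^ 3 := by gcongr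
    _ = N * Real.log N ^ 6 * 8 := by ring
    _ ≤ N * Real.log N ^ 6 * Real.log N := by gcongr
    _ = N * Real.log N ^ 7 := by ring

/-- `log n ≤ n / 4` and powers -/
lemma ev_half : ∀ᶠ n : ℕ in atTop, Real.log n ^ 7 ≤ n := by
  have h1 := (isLittleO_log_rpow_rpow_atTop (s := (1 : ℝ)) (7 : ℝ) (by norm_num)).bound
    (by norm_num : (0 : ℝ) < 1)
  have h2 := (tendsto_natCast_atTop_atTop (R := ℝ)).eventually h1
  filter_upwards [h2, tLog.eventually_ge_atTop 1, eventually_ge_atTop 1] with n h3 h4 h5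
  rw [Real.norm_of_nonneg (Real.rpow_nonneg (by linarith) _),
    Real.norm_of_nonneg (by positivity), one_mul, Real.rpow_one] at h3
  have e1 : Real.log (n : ℝ) ^ (7 : ℝ) = Real.log n ^ 7 := by
    rw [← Real.rpow_natCast]
    norm_num
  rwa [e1] at h3

end Pool.Agent.Helper29.BE
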