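import Pool.Agent.Helper29.BE.Main2

/-! Dense sets, and the sizes of the iterated primes. -/

set_option autoImplicit false

open Finset Filter Topology

namespace Pool.Agent.Helper29.BE

open Pool.Agent.H197R2.PG

/-- sets which are dense up to a power of the logarithm -/
theorem shiftsD2 (d B : ℕ) (hd : 1 ≤ d) : ∃ c : ℝ, 0 < c ∧ ∃ n₀ : ℕ, ∀ n : ℕ,
    n₀ ≤ n → ∀ Y H : ℕ, n ≤ Y → Y ^ 17 ≤ H → ∀ (T : Finset ℕ) (a : Fin d → ℕ → ℕ)
    (s : Fin d → Bool), (∀ i, Set.InjOn (a i) T) →
    (∀ i, ∀ t ∈ T, Odd (a i t) ∧ a i t ≤ Y) →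
    Real.log H ^ d ≤ #T → 2 * (Y : ℝ) ≤ Real.log n ^ B * #T →
    c * H ^ d / Real.log (Real.log (Real.log n)) ^ d ≤ #(Sh2 H T a s) := by
  classical
  obtain ⟨c, hc, Y₀, h⟩ := main2 d B hd
  have hlogt : Tendsto (fun x : ℕ => Real.log (x : ℝ)) atTop atTop :=
    Real.tendsto_log_atTop.comp tendsto_natCast_atTop_atTop
  have hll : Tendsto (fun x : ℕ => Real.log (Real.log (x : ℝ))) atTop atTop :=
    Real.tendsto_log_atTop.comp hlogt
  have hlll : Tendsto (fun x : ℕ => Real.log (Real.log (Real.log (x : ℝ)))) atTop atTop :=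
    Real.tendsto_log_atTop.comp hll
  obtain ⟨n₀, hn₀⟩ := eventually_atTop.1 ((hlogt.eventually_ge_atTop 1).and
    ((hll.eventually_ge_atTop 3).and ((hlll.eventually_ge_atTop 1).and
      (eventually_ge_atTop (Y₀ + 2)))))
  refine ⟨c / 2 ^ d, by positivity, n₀, fun n hn Y H hnY hH T a s hinj hodd hT hT2 => ?_⟩
  obtain ⟨g0, g1, g2, g3⟩ := hn₀ n hn
  set l : ℝ := Real.log (Real.log n) with hl
  set k : ℕ := ⌈l⌉₊ + 3 with hk
  have hkle : (k : ℝ) ≤ l + 4 := by
    have := Nat.ceil_lt_add_one (by linarith : 0 ≤ l)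
    rw [hk]
    push_cast
    linarith
  have hk3 : (3 : ℝ) ≤ k := by
    have : 3 ≤ k := by omega
    exact_mod_cast this
  have hlk : Real.log k ≤ 2 * Real.log l := by
    have h1 : (k : ℝ) ≤ l ^ 2 := by nlinarith
    have h2 : Real.log k ≤ Real.log (l ^ 2) := Real.log_le_log (by linarith) h1
    rw [Real.log_pow] at h2
    exact_mod_cast h2
  have hlk0 : 0 < Real.log k := Real.log_pos (by linarith)
  have h1 := h Y (by omega) H hH k T a s (by omega) hinj hodd hT (by
    refine hT2.trans ?_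
    apply mul_le_mul_of_nonneg_right _ (Nat.cast_nonneg _)
    have h2 : l ≤ k := by
      have := Nat.le_ceil l
      rw [hk]
      push_cast
      linarith
    calc Real.log n ^ B = Real.exp (B * l) := by
          rw [Real.exp_nat_mul, hl, Real.exp_log (by linarith)]
      _ ≤ Real.exp (B * k) := by
          apply Real.exp_le_exp.2
          exact mul_le_mul_of_nonneg_left h2 (Nat.cast_nonneg _))
  refine le_trans ?_ h1
  have e1 : c / 2 ^ d * (H : ℝ) ^ d / Real.log l ^ d = c * H ^ d / (2 * Real.log l) ^ d := by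
    rw [mul_pow]
    have : Real.log l ^ d ≠ 0 := by
      apply pow_ne_zero
      linarith
    field_simp
  rw [e1]
  apply div_le_div_of_nonneg_left (by positivity) (by positivity)
  exact pow_le_pow_left₀ hlk0.le hlk d


/-- the iterated primes -/
noncomputable def It (i x : ℕ) : ℕ := P^[i + 1] x

lemma It_zero (x : ℕ) : It 0 x = P x := rfl

lemma It_succ (i x : ℕ) : It (i + 1) x = P (It i x) := by
  unfold It
  rw [Function.iterate_succ_apply' P (i + 1) x]

lemma It_mono (i : ℕ) {x y : ℕ} (h : x ≤ y) : It i x ≤ It i y := by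
  induction i with
  | zero => exact P_mono h
  | succ i ih =>
    rw [It_succ, It_succ]
    exact P_mono ih

lemma It_le_of_le {i k : ℕ} (h : i ≤ k) (x : ℕ) : It i x ≤ It k x := by
  induction k with
  | zero =>
    have : i = 0 := by omega
    rw [this]
  | succ k ih =>
    rcases Nat.lt_or_ge i (k + 1) with h1 | h1
    · rw [It_succ]
      exact (ih (by omega)).trans (le_P _)
    · have : i = k + 1 := by omega
      rw [this]

lemma le_It (i x : ℕ) : x ≤ It i x := (le_P x).trans ((It_zero x) ▸ It_le_of_le (Nat.zero_le i) x)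

lemma It_odd (i : ℕ) {x : ℕ} (hx : 2 ≤ x) : 3 ≤ It i x ∧ It i x % 2 = 1 := by
  induction i with
  | zero => exact P_odd hx
  | succ i ih =>
    rw [It_succ]
    exact P_odd (by omega)

lemma It_pos (i x : ℕ) : 1 ≤ It i x := by
  cases i with
  | zero => exact (P_prime x).one_lt.le
  | succ i =>
    rw [It_succ]
    exact (P_prime _).one_lt.le

lemma It_inj (i : ℕ) {x y : ℕ} (hx : 1 ≤ x) (hy : 1 ≤ y) (h : It i x = It i y) : x = y := by
  induction i with
  | zero => exact P_inj hx hy h
  | succ i ih =>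
    rw [It_succ, It_succ] at h
    exact ih (P_inj (It_pos i x) (It_pos i y) h)

lemma ev_pow (B : ℕ) : ∀ᶠ n : ℕ in atTop, Real.log n ^ B ≤ n := by
  have h1 := (Real.isLittleO_pow_log_id_atTop (n := B)).bound (by norm_num : (0 : ℝ) < 1)
  have h2 := (tendsto_natCast_atTop_atTop (R := ℝ)).eventually h1
  filter_upwards [h2, tLog.eventually_ge_atTop 0] with n h3 h4
  rw [Real.norm_of_nonneg (by positivity)] at h3
  simp only [id] at h3
  rwa [Real.norm_of_nonneg (Nat.cast_nonneg _), one_mul] at h3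

/-- the iterated primes are at most `x` times a power of the logarithm -/
lemma It_le_log (i : ℕ) : ∀ᶠ x : ℕ in atTop, (It i x : ℝ) ≤ x * Real.log x ^ (4 * i + 3) := by
  induction i with
  | zero => simpa [It_zero] using P_le_log
  | succ i ih =>
    have tI : Tendsto (It i) atTop atTop := tendsto_atTop_mono (le_It i) tendsto_id
    filter_upwards [ih, tI.eventually P_le_log, ev_pow (4 * i + 3), tLog.eventually_ge_atTop 8,
      eventually_ge_atTop 2] with x h1 h2 h3 h4 h5
    have hx0 : (0 : ℝ) < x := by exact_mod_cast (by omega : 0 < x)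
    have hI0 : (0 : ℝ) < It i x := by exact_mod_cast It_pos i x
    have hlI : Real.log (It i x) ≤ 2 * Real.log x := by
      have h6 : (It i x : ℝ) ≤ (x : ℝ) ^ 2 := by
        calc (It i x : ℝ) ≤ x * Real.log x ^ (4 * i + 3) := h1
          _ ≤ x * x := mul_le_mul_of_nonneg_left h3 hx0.le
          _ = (x : ℝ) ^ 2 := by ring
      have h7 := Real.log_le_log hI0 h6
      rw [Real.log_pow] at h7
      exact_mod_cast h7
    have hlI0 : 0 ≤ Real.log (It i x : ℝ) := Real.log_natCast_nonneg _
    rw [It_succ]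
    calc (P (It i x) : ℝ) ≤ It i x * Real.log (It i x) ^ 3 := h2
      _ ≤ (x * Real.log x ^ (4 * i + 3)) * (2 * Real.log x) ^ 3 := by gcongr
      _ = x * Real.log x ^ (4 * i + 6) * 8 := by ring
      _ ≤ x * Real.log x ^ (4 * i + 6) * Real.log x := by gcongr
      _ = x * Real.log x ^ (4 * (i + 1) + 3) := by ring

end Pool.Agent.Helper29.BE
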