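import Pool.Agent.Helper29.BE.Vec

/-! Many vectors of even shifts which take a vector of a given small set to a vector of primes. -/

set_option autoImplicit false

open Finset Filter Topology

namespace Pool.Agent.Helper29.BE

open Pool.Agent.H197R2.PG

open Classical in
/-- The vectors of even numbers `1 ≤ h i ≤ H` such that for some `t` in `T` all the numbers
`a i t + h i` (if `s i`) and `h i - a i t > 0` (if not `s i`) are prime. -/
noncomputable def Sh {d : ℕ} (H : ℕ) (T : Finset ℕ) (a : Fin d → ℕ → ℕ) (s : Fin d → Bool) :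
    Finset (Fin d → ℕ) :=
  (Fintype.piFinset (fun _ : Fin d => (Icc 1 H).filter Even)).filter (fun h => ∃ t ∈ T, ∀ i,
    if s i = true then (a i t + h i).Prime else (a i t < h i ∧ (h i - a i t).Prime))

lemma ev_small : ∀ᶠ x : ℕ in atTop, 4 * (x : ℝ) ^ (1 / 16 : ℝ) * Real.log x ≤ x := by
  have h1 := (isLittleO_log_rpow_atTop (r := (1 / 4 : ℝ)) (by norm_num)).bound
    (by norm_num : (0 : ℝ) < 1)
  have h2 := (tendsto_natCast_atTop_atTop (R := ℝ)).eventually h1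
  have h3 := (tendsto_natCast_atTop_atTop (R := ℝ)).eventually
    ((tendsto_rpow_atTop (y := (1 / 4 : ℝ)) (by norm_num)).eventually_ge_atTop 4)
  filter_upwards [h2, h3, eventually_ge_atTop 1] with x h4 h5 h6
  have hx1 : (1 : ℝ) ≤ x := by exact_mod_cast h6
  have hx0 : (0 : ℝ) < x := by linarith
  have hlog : 0 ≤ Real.log (x : ℝ) := Real.log_nonneg hx1
  rw [Real.norm_of_nonneg hlog, Real.norm_of_nonneg (by positivity), one_mul] at h4
  have e1 : (x : ℝ) ^ (1 / 4 : ℝ) * (x : ℝ) ^ (1 / 16 : ℝ) * (x : ℝ) ^ (1 / 4 : ℝ) =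
      (x : ℝ) ^ (9 / 16 : ℝ) := by
    rw [← Real.rpow_add hx0, ← Real.rpow_add hx0]
    norm_num
  have e2 : (x : ℝ) ^ (9 / 16 : ℝ) ≤ (x : ℝ) ^ (1 : ℝ) :=
    Real.rpow_le_rpow_of_exponent_le hx1 (by norm_num)
  rw [Real.rpow_one] at e2
  calc 4 * (x : ℝ) ^ (1 / 16 : ℝ) * Real.log x ≤
        (x : ℝ) ^ (1 / 4 : ℝ) * (x : ℝ) ^ (1 / 16 : ℝ) * (x : ℝ) ^ (1 / 4 : ℝ) := by gcongr
    _ ≤ x := by rw [e1]; exact e2

lemma prod_le_sum_pow {d : ℕ} (hd : 1 ≤ d) (g : Fin d → ℝ) (hg : ∀ i, 0 ≤ g i) :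
    ∏ i, g i ≤ ∑ i, g i ^ d := by
  have hne : (univ : Finset (Fin d)).Nonempty := ⟨⟨0, hd⟩, mem_univ _⟩
  obtain ⟨j, -, hj⟩ := Finset.exists_max_image univ g hne
  calc ∏ i, g i ≤ ∏ _i : Fin d, g j := Finset.prod_le_prod (fun i _ => hg i) fun i hi => hj i hi
    _ = g j ^ d := by rw [prod_const, card_univ, Fintype.card_fin]
    _ ≤ ∑ i, g i ^ d := Finset.single_le_sum (f := fun i => g i ^ d)
        (fun i _ => pow_nonneg (hg i) d) (mem_univ j)

theorem main (d B : ℕ) (hd : 1 ≤ d) : ∃ c : ℝ, 0 < c ∧ ∃ Y₀ : ℕ, ∀ Y : ℕ, Y₀ ≤ Y →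
    ∀ H : ℕ, Y ^ 17 ≤ H → ∀ (k : ℕ) (T : Finset ℕ) (a : Fin d → ℕ → ℕ) (s : Fin d → Bool),
    3 ≤ k → (∀ i, Set.InjOn (a i) T) → (∀ i, ∀ t ∈ T, Odd (a i t) ∧ a i t ≤ Y) →
    Real.log H ^ d ≤ #T → 2 * (Y : ℝ) ≤ Real.exp (B * k) * #T →
    c * H ^ d / Real.log k ^ d ≤ #(Sh H T a s) := by
  classical
  obtain ⟨C1, hC1, hpa⟩ := pair_avg_pow d hd
  obtain ⟨C2, hC2, u0, hNN⟩ := NN_le
  obtain ⟨X0, hX0⟩ := eventually_atTop.1 (QQ_card.and ev_small)
  set E : ℝ := Real.exp B with hE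
  have hE0 : 0 < E := Real.exp_pos _
  set G : ℝ := 4 ^ d + (16 * C2 * C1) ^ d * d * E with hG
  have hG0 : 0 < G := by positivity
  refine ⟨1 / (3 ^ d * G), by positivity, 2 ^ 50 + u0 + X0, ?_⟩
  intro Y hY H hH k T a s hk hinj hodd hT hk2
  have hk3 : (3 : ℝ) ≤ k := by exact_mod_cast hk
  have hlk : 1 ≤ Real.log k := by
    rw [Real.le_log_iff_exp_le (by linarith)]
    have := Real.exp_one_lt_d9
    linarith
  set l : ℝ := Real.log k with hl
  -- the length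
  set x : ℕ := H / 2 with hx
  have hx1 : 2 ^ 49 * Y ^ 16 ≤ x := by
    rw [hx, Nat.le_div_iff_mul_le (by norm_num)]
    calc 2 ^ 49 * Y ^ 16 * 2 = 2 ^ 50 * Y ^ 16 := by ring
      _ ≤ Y * Y ^ 16 := Nat.mul_le_mul_right _ (by omega)
      _ = Y ^ 17 := by ring
      _ ≤ H := hH
  have hxY : 2 ^ 49 * Y ≤ x := by
    calc 2 ^ 49 * Y ≤ 2 ^ 49 * Y ^ 16 := Nat.mul_le_mul_left _ (Nat.le_self_pow (by norm_num) Y)
      _ ≤ x := hx1
  obtain ⟨hQ1, hQ2⟩ := hX0 x (by omega)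
  have hx10 : 10 ≤ x := by omega
  have hxpos : (0 : ℝ) < x := by
    have : 0 < x := by omega
    exact_mod_cast this
  have hH3 : H ≤ 3 * x := by omega
  have hY8 : (2 * (Y : ℝ)) ^ 16 ≤ x := by
    have h1 : (2 * Y) ^ 16 ≤ x := by
      calc (2 * Y) ^ 16 = 2 ^ 16 * Y ^ 16 := by ring
        _ ≤ 2 ^ 49 * Y ^ 16 := Nat.mul_le_mul_right _ (by norm_num)
        _ ≤ x := hx1
    exact_mod_cast h1
  have hY116 : 2 * (Y : ℝ) ≤ (x : ℝ) ^ (1 / 16 : ℝ) := by
    have h1 : 2 * (Y : ℝ) = ((2 * (Y : ℝ)) ^ 16) ^ (1 / 16 : ℝ) := by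
      rw [← Real.rpow_natCast, ← Real.rpow_mul (by positivity)]
      norm_num
    rw [h1]
    exact Real.rpow_le_rpow (by positivity) hY8 (by norm_num)
  set L := Real.log (x : ℝ) with hL
  have hL1 : 1 ≤ L := by
    rw [hL, Real.le_log_iff_exp_le hxpos]
    have h1 := Real.exp_one_lt_d9
    have h2 : (10 : ℝ) ≤ x := by exact_mod_cast hx10
    linarith
  have hL0 : 0 < L := by linarith
  -- the primes
  set Q : Finset ℕ := (QQ x).filter (fun q => 2 * Y < q) with hQdef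
  have hQsub : Q ⊆ QQ x := filter_subset _ _
  have hQc : (x : ℝ) / (4 * L) ≤ #Q := by
    have h1 : #(QQ x) ≤ #Q + 2 * Y := by
      have h2 : QQ x ⊆ Q ∪ Icc 1 (2 * Y) := by
        intro q hq
        rw [mem_union]
        by_cases h : 2 * Y < q
        · exact Or.inl (mem_filter.2 ⟨hq, h⟩)
        · right
          unfold QQ at hq
          rw [mem_filter, mem_Ioc] at hq
          rw [mem_Icc]
          omega
      calc #(QQ x) ≤ #(Q ∪ Icc 1 (2 * Y)) := card_le_card h2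
        _ ≤ #Q + #(Icc 1 (2 * Y)) := card_union_le _ _
        _ = #Q + 2 * Y := by rw [Nat.card_Icc]; omega
    have h1' : (#(QQ x) : ℝ) ≤ #Q + 2 * Y := by exact_mod_cast h1
    have h3 : 2 * (Y : ℝ) ≤ x / (4 * L) := by
      rw [le_div_iff₀ (by positivity)]
      calc 2 * (Y : ℝ) * (4 * L) ≤ (x : ℝ) ^ (1 / 16 : ℝ) * (4 * L) := by gcongr
        _ = 4 * (x : ℝ) ^ (1 / 16 : ℝ) * L := by ring
        _ ≤ x := hQ2
    have h4 : (x : ℝ) / (2 * L) = x / (4 * L) + x / (4 * L) := by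
      field_simp
      ring
    rw [h4] at hQ1
    linarith
  -- the shifts are among the good ones
  have hYx : Y ≤ x := by omega
  have hII : #(II T Q a s) ≤ #(Sh H T a s) := by
    apply card_le_card
    intro m hm
    unfold II at hm
    obtain ⟨z, hz, rfl⟩ := mem_image.1 hm
    rw [mem_product, Fintype.mem_piFinset] at hz
    obtain ⟨hz1, hz2⟩ := hz
    have key : ∀ i, z.2 i % 2 = 1 ∧ 2 * Y < z.2 i ∧ z.2 i ≤ x ∧ (z.2 i).Prime ∧
        a i z.1 % 2 = 1 ∧ a i z.1 ≤ Y := by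
      intro i
      have h1 := hz2 i
      rw [hQdef, mem_filter] at h1
      obtain ⟨h2, h3⟩ := h1
      unfold QQ at h2
      rw [mem_filter, mem_Ioc] at h2
      obtain ⟨⟨h4, h5⟩, h6⟩ := h2
      obtain ⟨h7, h8⟩ := hodd i z.1 hz1
      refine ⟨?_, h3, h5, h6, Nat.odd_iff.1 h7, h8⟩
      rcases h6.eq_two_or_odd with h | h
      · omega
      · exact h
    unfold Sh
    rw [mem_filter, Fintype.mem_piFinset]
    constructor
    · intro i
      obtain ⟨h1, h2, h3, h4, h5, h6⟩ := key i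
      rw [mem_filter, mem_Icc, Nat.even_iff]
      unfold gv g1
      split_ifs
      · exact ⟨⟨by omega, by omega⟩, by omega⟩
      · exact ⟨⟨by omega, by omega⟩, by omega⟩
    · refine ⟨z.1, hz1, fun i => ?_⟩
      obtain ⟨h1, h2, h3, h4, h5, h6⟩ := key i
      unfold gv g1
      by_cases hs : s i = true
      · rw [if_pos hs, if_pos hs]
        have e1 : a i z.1 + (z.2 i - a i z.1) = z.2 i := by omega
        rw [e1]
        exact h4
      · rw [if_neg hs, if_neg hs]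
        refine ⟨by omega, ?_⟩
        have e1 : z.2 i + a i z.1 - a i z.1 = z.2 i := by omega
        rw [e1]
        exact h4
  -- second moment
  have hvec := vec T Q a s (by
    intro q hq i t ht
    have h1 := (mem_filter.1 hq).2
    have h2 := (hodd i t ht).2
    omega)
  set K : ℝ := (#T : ℝ) with hK
  set t : ℝ := K * (#Q : ℝ) ^ d with ht
  have hH0 : (0 : ℝ) < H := by
    have : 0 < H := by omega
    exact_mod_cast this
  have hLH : L ≤ Real.log H := by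
    apply Real.log_le_log hxpos
    have : x ≤ H := by omega
    exact_mod_cast this
  have hKL : L ^ d ≤ K := (pow_le_pow_left₀ hL0.le hLH d).trans hT
  have hK0 : 0 < K := lt_of_lt_of_le (by positivity) hKL
  have hSi : ∀ i, ∑ z ∈ T.offDiag, gg (2 * Nat.dist (a i z.1) (a i z.2)) ^ d ≤
      E * (C1 * l) ^ d * K ^ 2 := by
    intro i
    set S : Finset ℕ := T.image (a i) with hS
    have hSc : #S = #T := card_image_of_injOn (hinj i)
    have hSY : S ⊆ Icc 1 Y := by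
      intro b hb
      obtain ⟨u, hu, rfl⟩ := mem_image.1 hb
      obtain ⟨h1, h2⟩ := hodd i u hu
      rw [mem_Icc]
      exact ⟨h1.pos, h2⟩
    have h1 := hpa k Y S E hk hSY hE0.le (by
      rw [hSc, hE, ← Real.exp_nat_mul, mul_comm (k : ℝ)]
      exact hk2)
    rw [hSc] at h1
    refine le_trans ?_ h1
    have hφ : Set.InjOn (fun z : ℕ × ℕ => (a i z.1, a i z.2)) T.offDiag := by
      intro z hz w hw hzw
      rw [mem_coe, mem_offDiag] at hz hw
      simp only [Prod.mk.injEq] at hzw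
      exact Prod.ext (hinj i hz.1 hw.1 hzw.1) (hinj i hz.2.1 hw.2.1 hzw.2)
    have e1 : ∑ z ∈ T.offDiag, gg (2 * Nat.dist (a i z.1) (a i z.2)) ^ d =
        ∑ w ∈ T.offDiag.image (fun z : ℕ × ℕ => (a i z.1, a i z.2)),
          gg (2 * Nat.dist w.1 w.2) ^ d := by
      rw [Finset.sum_image hφ]
    rw [e1]
    apply Finset.sum_le_sum_of_subset_of_nonneg
    · intro w hw
      obtain ⟨z, hz, rfl⟩ := mem_image.1 hw
      rw [mem_offDiag] at hz ⊢
      exact ⟨mem_image_of_mem _ hz.1, mem_image_of_mem _ hz.2.1,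
        fun h => hz.2.2 (hinj i hz.1 hz.2.1 h)⟩
    · intro w _ _
      exact pow_nonneg (by linarith [one_le_gg (2 * Nat.dist w.1 w.2)]) d
  have hoff : ∑ z ∈ T.offDiag, ∏ i, (NN Q (a i z.1) (a i z.2) : ℝ) ≤
      (C2 * x / L ^ 2) ^ d * (d * (E * (C1 * l) ^ d * K ^ 2)) := by
    calc ∑ z ∈ T.offDiag, ∏ i, (NN Q (a i z.1) (a i z.2) : ℝ)
        ≤ ∑ z ∈ T.offDiag, (C2 * x / L ^ 2) ^ d *
            ∑ i, gg (2 * Nat.dist (a i z.1) (a i z.2)) ^ d := by
          apply Finset.sum_le_sum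
          intro z hz
          rw [mem_offDiag] at hz
          have h1 : ∀ i, (NN Q (a i z.1) (a i z.2) : ℝ) ≤
              (C2 * x / L ^ 2) * gg (2 * Nat.dist (a i z.1) (a i z.2)) := by
            intro i
            have h2 := hNN x Y Q (by omega) hY116 hQsub (a i z.1) (a i z.2)
              (hodd i _ hz.1).2 (hodd i _ hz.2.1).2 (fun h => hz.2.2 (hinj i hz.1 hz.2.1 h))
            refine h2.trans (le_of_eq ?_)
            ring
          calc ∏ i, (NN Q (a i z.1) (a i z.2) : ℝ)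
              ≤ ∏ i, (C2 * x / L ^ 2) * gg (2 * Nat.dist (a i z.1) (a i z.2)) :=
                Finset.prod_le_prod (fun i _ => Nat.cast_nonneg _) fun i _ => h1 i
            _ = (C2 * x / L ^ 2) ^ d * ∏ i, gg (2 * Nat.dist (a i z.1) (a i z.2)) := by
                rw [Finset.prod_mul_distrib, prod_const, card_univ, Fintype.card_fin]
            _ ≤ _ := by
                apply mul_le_mul_of_nonneg_left _ (by positivity)
                exact prod_le_sum_pow hd _ fun i => by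
                  linarith [one_le_gg (2 * Nat.dist (a i z.1) (a i z.2))]
      _ = (C2 * x / L ^ 2) ^ d * ∑ i : Fin d, ∑ z ∈ T.offDiag,
            gg (2 * Nat.dist (a i z.1) (a i z.2)) ^ d := by
          rw [← Finset.mul_sum, Finset.sum_comm]
      _ ≤ (C2 * x / L ^ 2) ^ d * ∑ _i : Fin d, (E * (C1 * l) ^ d * K ^ 2) := by
          apply mul_le_mul_of_nonneg_left _ (by positivity)
          exact Finset.sum_le_sum fun i _ => hSi i
      _ = _ := by rw [sum_const, card_univ, Fintype.card_fin, nsmul_eq_mul]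
  have hdiag : ∑ z ∈ T.diag, ∏ i, (NN Q (a i z.1) (a i z.2) : ℝ) ≤ t := by
    calc ∑ z ∈ T.diag, ∏ i, (NN Q (a i z.1) (a i z.2) : ℝ) ≤ ∑ _z ∈ T.diag, (#Q : ℝ) ^ d := by
          apply Finset.sum_le_sum
          intro z hz
          rw [Finset.mem_diag] at hz
          rw [← hz.2]
          calc ∏ i, (NN Q (a i z.1) (a i z.1) : ℝ) ≤ ∏ _i : Fin d, (#Q : ℝ) :=
                Finset.prod_le_prod (fun i _ => Nat.cast_nonneg _)
                  fun i _ => by exact_mod_cast NN_self Q (a i z.1)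
            _ = (#Q : ℝ) ^ d := by rw [prod_const, card_univ, Fintype.card_fin]
      _ = t := by
          rw [sum_const, nsmul_eq_mul, Finset.diag_card]
  have hsum : ∑ z ∈ T ×ˢ T, ∏ i, (NN Q (a i z.1) (a i z.2) : ℝ) ≤
      t + (C2 * x / L ^ 2) ^ d * (d * (E * (C1 * l) ^ d * K ^ 2)) := by
    rw [← Finset.diag_union_offDiag, Finset.sum_union (Finset.disjoint_diag_offDiag T)]
    exact add_le_add hdiag hoff
  -- final computation
  have ht1 : K * (x / (4 * L)) ^ d ≤ t := by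
    rw [ht]
    apply mul_le_mul_of_nonneg_left _ hK0.le
    exact pow_le_pow_left₀ (by positivity) hQc d
  have hxd : (0 : ℝ) < (x : ℝ) ^ d := by positivity
  have ht2 : (x : ℝ) ^ d ≤ 4 ^ d * t := by
    calc (x : ℝ) ^ d = 4 ^ d * (L ^ d * (x / (4 * L)) ^ d) := by
          rw [← mul_pow, ← mul_pow]
          congr 1
          field_simp
      _ ≤ 4 ^ d * (K * (x / (4 * L)) ^ d) := by gcongr
      _ ≤ 4 ^ d * t := by gcongr
  have htpos : 0 < t := by
    by_contra hcon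
    push Not at hcon
    have : (4 : ℝ) ^ d * t ≤ 0 := mul_nonpos_of_nonneg_of_nonpos (by positivity) hcon
    linarith
  have h1 : t ≤ 4 ^ d * t ^ 2 / x ^ d := by
    rw [le_div_iff₀ hxd]
    calc t * (x : ℝ) ^ d ≤ t * (4 ^ d * t) := mul_le_mul_of_nonneg_left ht2 htpos.le
      _ = 4 ^ d * t ^ 2 := by ring
  have h2 : (C2 * x / L ^ 2) ^ d * (d * (E * (C1 * l) ^ d * K ^ 2)) ≤
      (16 * C2 * C1) ^ d * d * E * l ^ d * t ^ 2 / x ^ d := by
    have e1 : (C2 * x / L ^ 2) ^ d * (d * (E * (C1 * l) ^ d * K ^ 2)) =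
        (16 * C2 * C1) ^ d * d * E * l ^ d * (K * (x / (4 * L)) ^ d) ^ 2 / x ^ d := by
      have e2 : (C2 * x / L ^ 2 : ℝ) ^ d = C2 ^ d * (x : ℝ) ^ d / (L ^ d) ^ 2 := by
        rw [div_pow, mul_pow, ← pow_mul, ← pow_mul, mul_comm 2 d]
      have e3 : (x / (4 * L) : ℝ) ^ d = (x : ℝ) ^ d / (4 ^ d * L ^ d) := by
        rw [div_pow, mul_pow]
      have e4 : (16 * C2 * C1 : ℝ) ^ d = (4 ^ d) ^ 2 * C2 ^ d * C1 ^ d := by
        rw [mul_pow, mul_pow, ← pow_mul, mul_comm d 2, pow_mul]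
        norm_num
      rw [e2, e3, e4, mul_pow C1 l]
      have hLd : (0 : ℝ) < L ^ d := by positivity
      field_simp
    rw [e1]
    gcongr
  have h3 : t ^ 2 ≤ #(Sh H T a s) * (G * l ^ d * t ^ 2 / x ^ d) := by
    refine hvec.trans ?_
    have h4 : (#(II T Q a s) : ℝ) ≤ #(Sh H T a s) := by exact_mod_cast hII
    have h5 : ∑ z ∈ T ×ˢ T, ∏ i, (NN Q (a i z.1) (a i z.2) : ℝ) ≤ G * l ^ d * t ^ 2 / x ^ d := by
      refine hsum.trans ?_
      have h6 : (1 : ℝ) ≤ l ^ d := one_le_pow₀ hlk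
      have h7 : 4 ^ d * t ^ 2 / x ^ d ≤ 4 ^ d * l ^ d * t ^ 2 / x ^ d := by
        gcongr
        calc (4 : ℝ) ^ d = 4 ^ d * 1 := (mul_one _).symm
          _ ≤ 4 ^ d * l ^ d := mul_le_mul_of_nonneg_left h6 (by positivity)
      calc t + (C2 * x / L ^ 2) ^ d * (d * (E * (C1 * l) ^ d * K ^ 2))
          ≤ 4 ^ d * l ^ d * t ^ 2 / x ^ d +
            (16 * C2 * C1) ^ d * d * E * l ^ d * t ^ 2 / x ^ d := by linarith
        _ = G * l ^ d * t ^ 2 / x ^ d := by rw [hG]; ring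
    have h8 : 0 ≤ ∑ z ∈ T ×ˢ T, ∏ i, (NN Q (a i z.1) (a i z.2) : ℝ) :=
      Finset.sum_nonneg fun z _ => Finset.prod_nonneg fun i _ => Nat.cast_nonneg _
    exact mul_le_mul h4 h5 h8 (Nat.cast_nonneg _)
  have h4 : (x : ℝ) ^ d ≤ #(Sh H T a s) * (G * l ^ d) := by
    have h5 : t ^ 2 * x ^ d ≤ t ^ 2 * (#(Sh H T a s) * (G * l ^ d)) := by
      calc t ^ 2 * x ^ d ≤ (#(Sh H T a s) * (G * l ^ d * t ^ 2 / x ^ d)) * x ^ d := by gcongr
        _ = t ^ 2 * (#(Sh H T a s) * (G * l ^ d)) := by field_simp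
    exact le_of_mul_le_mul_left h5 (by positivity)
  have hHx : (H : ℝ) ^ d ≤ 3 ^ d * (x : ℝ) ^ d := by
    rw [← mul_pow]
    apply pow_le_pow_left₀ hH0.le
    exact_mod_cast hH3
  rw [div_le_iff₀ (by positivity), one_div, mul_comm _ ((H : ℝ) ^ d), ← div_eq_mul_inv,
    div_le_iff₀ (by positivity)]
  calc (H : ℝ) ^ d ≤ 3 ^ d * (x : ℝ) ^ d := hHx
    _ ≤ 3 ^ d * (#(Sh H T a s) * (G * l ^ d)) := by gcongr
    _ = #(Sh H T a s) * l ^ d * (3 ^ d * G) := by ring

end Pool.Agent.Helper29.BE
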