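import Pool.Agent.Helper29.BE.Main3
import Pool.Agent.Helper403.Pairs
import Pool.Agent.TH110.Zig.Primes

/-! The average of a power of the singular factor over the differences of primes is bounded. -/

set_option autoImplicit false

open Finset Filter Topology

namespace Pool.Agent.Helper29.BE

open Pool.Agent.H197R2.PG

lemma B_eq_gg (n : ℕ) : Pool.Agent.Helper403.B n = gg n := rfl

lemma B_one' : Pool.Agent.Helper403.B 1 = 1 := by
  rw [B_eq_gg]
  unfold gg
  simp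

/-- the primes between `4 ^ (2 N)` and `M` -/
noncomputable def TP (N M : ℕ) : Finset ℕ := (Icc 3 M).filter (fun p => p.Prime ∧ 4 ^ (2 * N) < p)

lemma TP_diff {N M h : ℕ} (hN : 1 ≤ N) (hh : 1 ≤ h) :
    ((#(((TP N M) ×ˢ (TP N M)).filter (fun x => x.1 = x.2 + h)) : ℕ) : ℝ) ≤
      (M : ℝ) * (10 * (gg h) ^ 2 / N ^ 2) + 1 + 2 * 4 ^ (8 * N) := by
  classical
  have h1 := Pool.Agent.Helper403.pairs_sieve (N := N) (a := 1) (b := 1) (k := 0) (k' := h)
    (Y := M) hN one_pos one_pos (by omega)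
    (((TP N M) ×ˢ (TP N M)).filter (fun x => x.1 = x.2 + h)) (by
      intro x hx
      rw [mem_filter, mem_product] at hx
      obtain ⟨⟨h1, h2⟩, h3⟩ := hx
      unfold TP at h1
      rw [mem_filter, mem_Icc] at h1
      exact ⟨by omega, h1.1.2⟩) (by
      intro x hx
      rw [mem_filter, mem_product] at hx
      obtain ⟨⟨h1, h2⟩, h3⟩ := hx
      unfold TP at h1 h2
      rw [mem_filter] at h1 h2
      exact ⟨h1.2.1, h2.2.1, h1.2.2, h2.2.2⟩)
  rw [B_one', B_eq_gg] at h1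
  have e1 : Int.natAbs (((0 : ℕ) : ℤ) - (h : ℤ)) = h := by omega
  rw [e1] at h1
  simpa using h1

lemma TP_dist {N M h : ℕ} (hN : 1 ≤ N) (hh : 1 ≤ h) (hNM : 4 ^ (16 * N) ≤ M) :
    ((#((TP N M).offDiag.filter (fun x => Nat.dist x.1 x.2 = h)) : ℕ) : ℝ) ≤
      22 * M * (gg h) ^ 2 / N ^ 2 := by
  classical
  have h1 := TP_diff (M := M) hN hh
  have hsub : (TP N M).offDiag.filter (fun x => Nat.dist x.1 x.2 = h) ⊆
      (((TP N M) ×ˢ (TP N M)).filter (fun x => x.1 = x.2 + h)) ∪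
      (((TP N M) ×ˢ (TP N M)).filter (fun x => x.1 = x.2 + h)).image Prod.swap := by
    intro x hx
    rw [mem_filter, mem_offDiag] at hx
    obtain ⟨⟨h2, h3, h4⟩, h5⟩ := hx
    rw [mem_union]
    unfold Nat.dist at h5
    rcases lt_or_gt_of_ne h4 with h6 | h6
    · right
      rw [mem_image]
      refine ⟨(x.2, x.1), ?_, rfl⟩
      rw [mem_filter, mem_product]
      exact ⟨⟨h3, h2⟩, by simp only; omega⟩
    · left
      rw [mem_filter, mem_product]
      exact ⟨⟨h2, h3⟩, by omega⟩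
  have h2 : #((TP N M).offDiag.filter (fun x => Nat.dist x.1 x.2 = h)) ≤
      2 * #(((TP N M) ×ˢ (TP N M)).filter (fun x => x.1 = x.2 + h)) := by
    refine (card_le_card hsub).trans ((card_union_le _ _).trans ?_)
    have := card_image_le (s := ((TP N M) ×ˢ (TP N M)).filter (fun x => x.1 = x.2 + h))
      (f := Prod.swap)
    omega
  have h3 : ((#((TP N M).offDiag.filter (fun x => Nat.dist x.1 x.2 = h)) : ℕ) : ℝ) ≤
      2 * (#(((TP N M) ×ˢ (TP N M)).filter (fun x => x.1 = x.2 + h)) : ℕ) := by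
    exact_mod_cast h2
  have hN1 : (1 : ℝ) ≤ N := by exact_mod_cast hN
  have hg := one_le_gg h
  have h4 : (1 + 2 * 4 ^ (8 * N) : ℝ) ≤ M / N ^ 2 := by
    rw [le_div_iff₀ (by positivity)]
    have h5 : N ^ 2 ≤ 4 ^ (2 * N) := by
      calc N ^ 2 ≤ (4 ^ N) ^ 2 := Nat.pow_le_pow_left (Nat.lt_pow_self (by norm_num)).le 2
        _ = 4 ^ (2 * N) := by rw [← pow_mul]; ring_nf
    have h6 : (1 + 2 * 4 ^ (8 * N)) * N ^ 2 ≤ M := by
      calc (1 + 2 * 4 ^ (8 * N)) * N ^ 2 ≤ (4 * 4 ^ (8 * N)) * 4 ^ (2 * N) := by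
            apply Nat.mul_le_mul _ h5
            have : 1 ≤ 4 ^ (8 * N) := Nat.one_le_pow _ _ (by norm_num)
            omega
        _ = 4 ^ (1 + 8 * N + 2 * N) := by rw [pow_add, pow_add, pow_one]
        _ ≤ 4 ^ (16 * N) := Nat.pow_le_pow_right (by norm_num) (by omega)
        _ ≤ M := hNM
    exact_mod_cast h6
  have h7 : (M : ℝ) / N ^ 2 ≤ M * (gg h) ^ 2 / N ^ 2 := by
    gcongr
    have h8 : (1 : ℝ) ≤ (gg h) ^ 2 := one_le_pow₀ hg
    nlinarith [Nat.cast_nonneg (α := ℝ) M]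
  calc ((#((TP N M).offDiag.filter (fun x => Nat.dist x.1 x.2 = h)) : ℕ) : ℝ)
      ≤ 2 * ((M : ℝ) * (10 * (gg h) ^ 2 / N ^ 2) + 1 + 2 * 4 ^ (8 * N)) := by linarith
    _ ≤ 2 * ((M : ℝ) * (10 * (gg h) ^ 2 / N ^ 2) + M * (gg h) ^ 2 / N ^ 2) := by linarith
    _ = 22 * M * (gg h) ^ 2 / N ^ 2 := by ring

theorem TP_avg (d : ℕ) (hd : 1 ≤ d) : ∃ C : ℝ, 0 < C ∧ ∀ N M : ℕ, 1 ≤ N → 4 ^ (16 * N) ≤ M →
    ∑ z ∈ (TP N M).offDiag, gg (2 * Nat.dist z.1 z.2) ^ d ≤ C * (M / N) ^ 2 := by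
  classical
  obtain ⟨C0, hC0, hE⟩ := euler_le
  refine ⟨22 * (3 / 2) ^ d * (C0 * Real.log ((d + 2 : ℕ) : ℝ)) ^ (d + 2), ?_, ?_⟩
  · have : 0 < Real.log ((d + 2 : ℕ) : ℝ) := Real.log_pos (by push_cast; linarith [Nat.cast_nonneg (α := ℝ) d])
    positivity
  intro N M hN hNM
  have hN1 : (1 : ℝ) ≤ N := by exact_mod_cast hN
  have hg0 : ∀ n : ℕ, 0 ≤ gg n := fun n => by linarith [one_le_gg n]
  have hmaps : ∀ z ∈ (TP N M).offDiag, Nat.dist z.1 z.2 ∈ Icc 1 M := by
    intro z hz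
    rw [mem_offDiag] at hz
    obtain ⟨h1, h2, h3⟩ := hz
    unfold TP at h1 h2
    rw [mem_filter, mem_Icc] at h1 h2
    have h4 : 0 < Nat.dist z.1 z.2 := Nat.dist_pos_of_ne h3
    rw [mem_Icc]
    refine ⟨h4, ?_⟩
    unfold Nat.dist
    omega
  rw [← Finset.sum_fiberwise_of_maps_to hmaps]
  calc ∑ h ∈ Icc 1 M, ∑ z ∈ (TP N M).offDiag.filter (fun z => Nat.dist z.1 z.2 = h),
        gg (2 * Nat.dist z.1 z.2) ^ d
      ≤ ∑ h ∈ Icc 1 M, 22 * (3 / 2) ^ d * M / N ^ 2 * gg h ^ (d + 2) := by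
        apply Finset.sum_le_sum
        intro h hh
        rw [mem_Icc] at hh
        have e1 : ∑ z ∈ (TP N M).offDiag.filter (fun z => Nat.dist z.1 z.2 = h),
            gg (2 * Nat.dist z.1 z.2) ^ d =
            (#((TP N M).offDiag.filter (fun z => Nat.dist z.1 z.2 = h)) : ℕ) * gg (2 * h) ^ d := by
          rw [← nsmul_eq_mul, ← Finset.sum_const]
          apply Finset.sum_congr rfl
          intro z hz
          rw [(mem_filter.1 hz).2]
        rw [e1]
        have h1 := TP_dist (N := N) (M := M) hN hh.1 hNM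
        have h2 : gg (2 * h) ^ d ≤ (3 / 2 * gg h) ^ d :=
          pow_le_pow_left₀ (hg0 _) (gg_two_mul_le h hh.1) d
        calc ((#((TP N M).offDiag.filter (fun z => Nat.dist z.1 z.2 = h)) : ℕ) : ℝ) * gg (2 * h) ^ d
            ≤ (22 * M * (gg h) ^ 2 / N ^ 2) * (3 / 2 * gg h) ^ d := by
              apply mul_le_mul h1 h2 (pow_nonneg (hg0 _) d)
              have := hg0 h
              positivity
          _ = 22 * (3 / 2) ^ d * M / N ^ 2 * gg h ^ (d + 2) := by
              rw [mul_pow, pow_add]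
              ring
    _ = 22 * (3 / 2) ^ d * M / N ^ 2 * ∑ h ∈ Icc 1 M, gg h ^ (d + 2) := by
        rw [Finset.mul_sum]
    _ ≤ 22 * (3 / 2) ^ d * M / N ^ 2 * (M * (C0 * Real.log ((d + 2 : ℕ) : ℝ)) ^ (d + 2)) := by
        apply mul_le_mul_of_nonneg_left _ (by positivity)
        exact (moment_le (d + 2) M).trans (mul_le_mul_of_nonneg_left (hE (d + 2) M (by omega))
          (Nat.cast_nonneg _))
    _ = _ := by
        field_simp

/-- the odd primes up to `M` -/
lemma primes_many : ∀ᶠ M : ℕ in atTop, (M : ℝ) / (2 * Real.log M) ≤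
    (#((Icc 3 M).filter Nat.Prime) : ℝ) := by
  have h1 := Pool.Agent.TH110.Zig.pnt_window 1 1 (1 / 4) (by norm_num) (by norm_num)
  have h5 : ∀ᶠ M : ℕ in atTop, Real.log M ≤ (1 / 4) * M := by
    have h6 := Real.isLittleO_log_id_atTop.bound (by norm_num : (0 : ℝ) < 1 / 4)
    filter_upwards [tendsto_natCast_atTop_atTop.eventually h6, eventually_ge_atTop 1] with M h7 h8
    have h9 : (0 : ℝ) ≤ Real.log M := Real.log_natCast_nonneg M
    rw [Real.norm_of_nonneg h9] at h7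
    simpa using h7
  filter_upwards [tendsto_natCast_atTop_atTop.eventually h1, h5, eventually_ge_atTop 3] with M h2 h6 hM
  have hM3 : (3 : ℝ) ≤ M := by exact_mod_cast hM
  have hlog : 0 < Real.log (M : ℝ) := Real.log_pos (by linarith)
  have a1 := h2 (M : ℝ) (by linarith) (by linarith)
  rw [Nat.floor_natCast] at a1
  have b1 := (abs_le.1 a1).1
  have h3 : Nat.primeCounting M ≤ #((Icc 3 M).filter Nat.Prime) + 1 := by
    rw [Nat.primeCounting, Nat.primeCounting', Nat.count_eq_card_filter_range]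
    refine le_trans (card_le_card (?_ : _ ⊆ insert 2 ((Icc 3 M).filter Nat.Prime)))
      (card_insert_le _ _)
    intro p hp
    rw [mem_filter, mem_range] at hp
    rw [mem_insert, mem_filter, mem_Icc]
    have := hp.2.two_le
    by_cases h : p = 2
    · exact Or.inl h
    · exact Or.inr ⟨⟨by omega, by omega⟩, hp.2⟩
  have h4 : (Nat.primeCounting M : ℝ) ≤ #((Icc 3 M).filter Nat.Prime) + 1 := by exact_mod_cast h3
  have e1 : (M : ℝ) / (2 * Real.log M) = (M / Real.log M) / 2 := by field_simp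
  have h7 : 1 ≤ (M / Real.log M) / 4 := by
    rw [le_div_iff₀ (by norm_num), le_div_iff₀ hlog]
    linarith
  rw [e1]
  linarith

/-- many primes, with the number `N = ⌊log_4 M / 16⌋` -/
lemma TP_many : ∀ᶠ M : ℕ in atTop, 1 ≤ Nat.log 4 M / 16 ∧ 4 ^ (16 * (Nat.log 4 M / 16)) ≤ M ∧
    ((Nat.log 4 M / 16 : ℕ) : ℝ) ≤ Real.log M ∧
    (M : ℝ) / (Nat.log 4 M / 16 : ℕ) ≤ 180 * #(TP (Nat.log 4 M / 16) M) := by
  filter_upwards [primes_many, eventually_ge_atTop (4 ^ 16)] with M h1 hM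
  have hM0 : M ≠ 0 := by positivity
  have hlog : 16 ≤ Nat.log 4 M := Nat.le_log_of_pow_le (by norm_num) hM
  set N : ℕ := Nat.log 4 M / 16 with hN
  have hN1 : 1 ≤ N := by omega
  have h16 : 16 * N ≤ Nat.log 4 M := by omega
  have h2 : 4 ^ (16 * N) ≤ M :=
    (Nat.pow_le_pow_right (by norm_num) h16).trans (Nat.pow_log_le_self 4 hM0)
  have hMr : (0 : ℝ) < M := by
    have : 0 < M := by omega
    exact_mod_cast this
  have hN1r : (1 : ℝ) ≤ N := by exact_mod_cast hN1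
  have hl4 : Real.log 4 ≤ 1.3863 := Pool.Agent.Helper403.log_four_le
  have hl4' : (1.386 : ℝ) ≤ Real.log 4 := Pool.Agent.Helper403.log_four_ge
  -- N ≤ log M
  have h3 : (N : ℝ) ≤ Real.log M := by
    have h4 : ((4 : ℝ) ^ (16 * N)) ≤ M := by exact_mod_cast h2
    have h5 := Real.log_le_log (by positivity) h4
    rw [Real.log_pow] at h5
    push_cast at h5
    nlinarith
  -- log M ≤ 45 N
  have h6 : Real.log M ≤ 45 * N := by
    have h7 : M < 4 ^ (Nat.log 4 M + 1) := Nat.lt_pow_succ_log_self (by norm_num) M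
    have h8 : Nat.log 4 M + 1 ≤ 32 * N := by omega
    have h9 : M ≤ 4 ^ (32 * N) := (h7.le).trans (Nat.pow_le_pow_right (by norm_num) h8)
    have h10 : (M : ℝ) ≤ (4 : ℝ) ^ (32 * N) := by exact_mod_cast h9
    have h11 := Real.log_le_log hMr h10
    rw [Real.log_pow] at h11
    push_cast at h11
    nlinarith
  refine ⟨hN1, h2, h3, ?_⟩
  have hlogpos : 0 < Real.log (M : ℝ) := by linarith
  have h12 : (M : ℝ) / (90 * N) ≤ (#((Icc 3 M).filter Nat.Prime) : ℝ) := by
    refine le_trans ?_ h1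
    apply div_le_div_of_nonneg_left hMr.le (by positivity)
    linarith
  have h13 : #((Icc 3 M).filter Nat.Prime) ≤ #(TP N M) + 4 ^ (2 * N) := by
    have hsub : (Icc 3 M).filter Nat.Prime ⊆ TP N M ∪ Icc 1 (4 ^ (2 * N)) := by
      intro p hp
      rw [mem_filter] at hp
      rw [mem_union]
      by_cases h : 4 ^ (2 * N) < p
      · left
        unfold TP
        rw [mem_filter]
        exact ⟨hp.1, hp.2, h⟩
      · right
        rw [mem_Icc]
        exact ⟨hp.2.pos, by omega⟩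
    refine (card_le_card hsub).trans ((card_union_le _ _).trans ?_)
    rw [Nat.card_Icc, Nat.add_sub_cancel]
  have h13' : (#((Icc 3 M).filter Nat.Prime) : ℝ) ≤ #(TP N M) + 4 ^ (2 * N) := by
    exact_mod_cast h13
  have h14 : (4 : ℝ) ^ (2 * N) ≤ M / (180 * N) := by
    rw [le_div_iff₀ (by positivity)]
    have h15 : 4 ^ (2 * N) * (180 * N) ≤ M := by
      calc 4 ^ (2 * N) * (180 * N) ≤ 4 ^ (2 * N) * (4 ^ 4 * 4 ^ N) := by
            apply Nat.mul_le_mul_left
            apply Nat.mul_le_mul (by norm_num) (Nat.lt_pow_self (by norm_num)).le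
        _ = 4 ^ (2 * N + (4 + N)) := by rw [pow_add, pow_add]
        _ ≤ 4 ^ (16 * N) := Nat.pow_le_pow_right (by norm_num) (by omega)
        _ ≤ M := h2
    exact_mod_cast h15
  have e2 : (M : ℝ) / (90 * N) = M / (180 * N) + M / (180 * N) := by
    field_simp
    ring
  have h16' : (M : ℝ) / (180 * N) ≤ #(TP N M) := by linarith
  calc (M : ℝ) / N = 180 * (M / (180 * N)) := by field_simp
    _ ≤ 180 * #(TP N M) := by linarith

end Pool.Agent.Helper29.BE
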