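import Pool.Agent.H197R2.PG7

/-! Second moment for vectors of shifts, and powers of the singular factor on average. -/

set_option autoImplicit false

open Finset Filter Topology

namespace Pool.Agent.Helper29.BE

open Pool.Agent.H197R2.PG

/-- number of coincidences `b + q' = a + q` -/
noncomputable def NN (Q : Finset ℕ) (a b : ℕ) : ℕ :=
  ∑ q ∈ Q, #(Q.filter (fun q' => b + q' = a + q))

lemma NN_swap (Q : Finset ℕ) (a b : ℕ) : NN Q a b = NN Q b a := by
  classical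
  unfold NN
  simp only [Finset.card_filter]
  rw [Finset.sum_comm]
  apply Finset.sum_congr rfl
  intro q _
  apply Finset.sum_congr rfl
  intro q' _
  exact if_congr ⟨Eq.symm, Eq.symm⟩ rfl rfl

lemma NN_self (Q : Finset ℕ) (a : ℕ) : NN Q a a ≤ #Q := by
  classical
  unfold NN
  rw [Finset.card_eq_sum_ones]
  apply Finset.sum_le_sum
  intro q _
  apply Finset.card_le_one.mpr
  intro u hu v hv
  have h2 := (mem_filter.mp hu).2
  have h3 := (mem_filter.mp hv).2
  omega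

lemma NN_mono {Q Q' : Finset ℕ} (h : Q ⊆ Q') (a b : ℕ) : NN Q a b ≤ NN Q' a b := by
  classical
  unfold NN
  calc _ ≤ ∑ q ∈ Q, #(Q'.filter (fun q' => b + q' = a + q)) :=
        sum_le_sum fun q _ => card_le_card (filter_subset_filter _ h)
    _ ≤ _ := sum_le_sum_of_subset h

lemma NN_le : ∃ C : ℝ, 1 ≤ C ∧ ∃ u0 : ℕ, ∀ (x Y : ℕ) (Q : Finset ℕ), u0 ≤ x →
    2 * (Y : ℝ) ≤ (x : ℝ) ^ (1 / 16 : ℝ) → Q ⊆ QQ x → ∀ a b : ℕ, a ≤ Y → b ≤ Y → a ≠ b →
    (NN Q a b : ℝ) ≤ C * gg (2 * Nat.dist a b) * x / Real.log x ^ 2 := by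
  classical
  obtain ⟨C, hC, u0, hps⟩ := pair_sieve_sharp
  refine ⟨C, hC, u0, ?_⟩
  intro x Y Q hx hY hQ a b ha hb hab
  have hd0 : 0 < Nat.dist a b := Nat.dist_pos_of_ne hab
  have hdY : Nat.dist a b ≤ Y := by
    unfold Nat.dist
    omega
  have hdY' : 2 * (Nat.dist a b : ℝ) ≤ (x : ℝ) ^ (1 / 16 : ℝ) := by
    have : (Nat.dist a b : ℝ) ≤ Y := by exact_mod_cast hdY
    linarith
  have hbound := hps (Nat.dist a b) 0 x hd0 hx hdY'
  have hcnt : NN Q a b ≤
      #((Ioc 0 (0 + x)).filter (fun n => n.Prime ∧ (n + Nat.dist a b).Prime)) := by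
    refine (NN_mono hQ a b).trans ?_
    rcases lt_or_gt_of_ne hab with h | h
    · have e : Nat.dist a b = b - a := Nat.dist_eq_sub_of_le h.le
      rw [e, NN_swap]
      exact cnt_le x b a h
    · have e : Nat.dist a b = a - b := Nat.dist_eq_sub_of_le_right h.le
      rw [e]
      exact cnt_le x a b h
  calc (NN Q a b : ℝ)
      ≤ (#((Ioc 0 (0 + x)).filter (fun n => n.Prime ∧ (n + Nat.dist a b).Prime)) : ℝ) := by
        exact_mod_cast hcnt
    _ ≤ _ := hbound

/-- one component of the shift -/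
def g1 {d : ℕ} (a : Fin d → ℕ → ℕ) (s : Fin d → Bool) (i : Fin d) (t u : ℕ) : ℕ :=
  if s i then u - a i t else u + a i t

/-- the shift vector -/
def gv {d : ℕ} (a : Fin d → ℕ → ℕ) (s : Fin d → Bool) (z : ℕ × (Fin d → ℕ)) : Fin d → ℕ :=
  fun i => g1 a s i z.1 (z.2 i)

/-- the set of the shift vectors -/
noncomputable def II {d : ℕ} (T Q : Finset ℕ) (a : Fin d → ℕ → ℕ) (s : Fin d → Bool) :
    Finset (Fin d → ℕ) := by
  classical
  exact (T ×ˢ Fintype.piFinset (fun _ : Fin d => Q)).image (gv a s)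

theorem vec {d : ℕ} (T Q : Finset ℕ) (a : Fin d → ℕ → ℕ) (s : Fin d → Bool)
    (hQ : ∀ q ∈ Q, ∀ i, ∀ t ∈ T, a i t ≤ q) :
    ((#T : ℝ) * (#Q : ℝ) ^ d) ^ 2 ≤ #(II T Q a s) *
      ∑ z ∈ T ×ˢ T, ∏ i, (NN Q (a i z.1) (a i z.2) : ℝ) := by
  classical
  set W := Fintype.piFinset (fun _ : Fin d => Q) with hW
  set Pairs := T ×ˢ W with hPairs
  set f : ℕ × (Fin d → ℕ) → (Fin d → ℕ) := gv a s with hf
  have hII : II T Q a s = Pairs.image f := by
    unfold II
    rfl
  rw [hII]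
  set I := Pairs.image f with hI
  set r : (Fin d → ℕ) → ℕ := fun m => #(Pairs.filter (fun z => f z = m)) with hr
  have hcardP : #Pairs = ∑ m ∈ I, r m := Finset.card_eq_sum_card_image f Pairs
  have hcardP' : (#Pairs : ℝ) = (#T : ℝ) * (#Q : ℝ) ^ d := by
    rw [hPairs, Finset.card_product, hW, Fintype.card_piFinset, prod_const, card_univ,
      Fintype.card_fin]
    push_cast
    rfl
  have hCS : (#Pairs : ℝ) ^ 2 ≤ #I * ∑ m ∈ I, (r m : ℝ) ^ 2 := by
    rw [hcardP]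
    push_cast
    exact sq_sum_le_card_mul_sum_sq
  have e1 : ∑ m ∈ I, (r m) ^ 2 = ∑ z ∈ Pairs, r (f z) := by
    rw [Finset.sum_comp r f]
    apply Finset.sum_congr rfl
    intro m _
    rw [smul_eq_mul, sq]
  set F : Fin d → ℕ → ℕ → ℕ → ℕ := fun i t t' u =>
    #(Q.filter (fun u' => g1 a s i t' u' = g1 a s i t u)) with hF
  have e2 : ∀ z : ℕ × (Fin d → ℕ), r (f z) = ∑ t' ∈ T, ∏ i, F i z.1 t' (z.2 i) := by
    intro z
    have h1 : r (f z) = ∑ t' ∈ T, #(W.filter (fun q' => f (t', q') = f z)) := by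
      simp only [hr, Finset.card_filter, hPairs]
      rw [Finset.sum_product]
    rw [h1]
    apply Finset.sum_congr rfl
    intro t' _
    have h2 : W.filter (fun q' => f (t', q') = f z) =
        Fintype.piFinset (fun i => Q.filter (fun u' => g1 a s i t' u' = g1 a s i z.1 (z.2 i))) := by
      ext q'
      rw [mem_filter, hW, Fintype.mem_piFinset, Fintype.mem_piFinset]
      constructor
      · rintro ⟨h3, h4⟩ i
        rw [mem_filter]
        exact ⟨h3 i, congrFun h4 i⟩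
      · intro h3
        refine ⟨fun i => (mem_filter.1 (h3 i)).1, ?_⟩
        funext i
        exact (mem_filter.1 (h3 i)).2
    rw [h2, Fintype.card_piFinset]
  have e3 : ∑ z ∈ Pairs, r (f z) = ∑ z ∈ T ×ˢ T, ∏ i, NN Q (a i z.1) (a i z.2) := by
    rw [Finset.sum_congr rfl fun z _ => e2 z]
    rw [hPairs, Finset.sum_product, Finset.sum_product]
    apply Finset.sum_congr rfl
    intro t ht
    rw [Finset.sum_comm]
    apply Finset.sum_congr rfl
    intro t' ht'
    have h1 := Finset.prod_univ_sum (fun _ : Fin d => Q) (fun i u => F i t t' u)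
    rw [hW]
    simp only
    rw [← h1]
    apply Finset.prod_congr rfl
    intro i _
    by_cases hs : s i = true
    · rw [NN_swap]
      unfold NN
      apply Finset.sum_congr rfl
      intro u hu
      simp only [hF]
      congr 1
      apply Finset.filter_congr
      intro u' hu'
      have h2 := hQ u hu i t ht
      have h3 := hQ u' hu' i t' ht'
      unfold g1
      rw [if_pos hs, if_pos hs]
      omega
    · unfold NN
      apply Finset.sum_congr rfl
      intro u hu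
      simp only [hF]
      congr 1
      apply Finset.filter_congr
      intro u' hu'
      unfold g1
      rw [if_neg hs, if_neg hs]
      omega
  have e4 : ∑ m ∈ I, (r m : ℝ) ^ 2 = ∑ z ∈ T ×ˢ T, ∏ i, (NN Q (a i z.1) (a i z.2) : ℝ) := by
    have h1 : ∑ m ∈ I, (r m : ℝ) ^ 2 = ((∑ m ∈ I, (r m) ^ 2 : ℕ) : ℝ) := by push_cast; rfl
    rw [h1, e1, e3]
    push_cast
    rfl
  rw [← hcardP', ← e4]
  exact hCS

/-- The average of a power of the singular factor over the differences of a set. -/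
theorem pair_avg_pow (d : ℕ) (hd : 1 ≤ d) : ∃ C : ℝ, 1 ≤ C ∧ ∀ (k Y : ℕ) (S : Finset ℕ) (E : ℝ),
    3 ≤ k → S ⊆ Icc 1 Y → 0 ≤ E → 2 * (Y : ℝ) ≤ E ^ k * #S →
    ∑ x ∈ S.offDiag, gg (2 * Nat.dist x.1 x.2) ^ d ≤
      E * (C * Real.log k) ^ d * (#S : ℝ) ^ 2 := by
  classical
  obtain ⟨C, hC, hE⟩ := euler_le
  have hlogd : 0 ≤ Real.log d := Real.log_natCast_nonneg d
  refine ⟨3 / 2 * C * (1 + Real.log d), by nlinarith, ?_⟩
  intro k Y S E hk hS hE0 hYE
  have hk3 : (3 : ℝ) ≤ k := by exact_mod_cast hk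
  have hlogk : 1 ≤ Real.log k := by
    rw [Real.le_log_iff_exp_le (by linarith)]
    have := Real.exp_one_lt_d9
    linarith
  set X := ∑ x ∈ S.offDiag, gg (2 * Nat.dist x.1 x.2) ^ d with hX
  have hK0 : (0 : ℝ) ≤ (#S : ℝ) := Nat.cast_nonneg _
  obtain ⟨m, rfl⟩ : ∃ m, k = m + 1 := ⟨k - 1, by omega⟩
  have hg0 : ∀ n : ℕ, 0 ≤ gg n := fun n => by linarith [one_le_gg n]
  have h1 : X ^ (m + 1) ≤ (#S.offDiag : ℝ) ^ m *
      ∑ x ∈ S.offDiag, (gg (2 * Nat.dist x.1 x.2) ^ d) ^ (m + 1) :=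
    pow_sum_le_card_mul_sum_pow (fun x _ => pow_nonneg (hg0 _) d) m
  have h2 : (#S.offDiag : ℝ) ≤ (#S : ℝ) ^ 2 := by
    have : #S.offDiag ≤ #S * #S := by
      rw [offDiag_card]
      exact Nat.sub_le _ _
    calc (#S.offDiag : ℝ) ≤ ((#S * #S : ℕ) : ℝ) := by exact_mod_cast this
      _ = (#S : ℝ) ^ 2 := by push_cast; ring
  set D : ℕ := d * (m + 1) with hD
  have h3 : ∑ x ∈ S.offDiag, (gg (2 * Nat.dist x.1 x.2) ^ d) ^ (m + 1) ≤
      ∑ x ∈ S.offDiag, (fun n : ℕ => (3 / 2 : ℝ) ^ D * gg n ^ D) (Nat.dist x.1 x.2) := by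
    apply Finset.sum_le_sum
    intro x hx
    rw [mem_offDiag] at hx
    have hd' : 0 < Nat.dist x.1 x.2 := Nat.dist_pos_of_ne hx.2.2
    have h4 := gg_two_mul_le _ hd'
    simp only
    rw [← pow_mul, ← mul_pow]
    exact pow_le_pow_left₀ (hg0 _) h4 _
  have h5 := sum_dist_le S Y hS (fun n : ℕ => (3 / 2 : ℝ) ^ D * gg n ^ D)
    (fun n => mul_nonneg (by positivity) (pow_nonneg (hg0 n) _))
  have hD3 : 3 ≤ D := by
    rw [hD]
    calc 3 ≤ m + 1 := hk
      _ ≤ d * (m + 1) := Nat.le_mul_of_pos_left _ hd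
  have h6 : ∑ h ∈ Icc 1 Y, (3 / 2 : ℝ) ^ D * gg h ^ D ≤
      (3 / 2 : ℝ) ^ D * (Y * (C * Real.log (D : ℕ)) ^ D) := by
    rw [← Finset.mul_sum]
    apply mul_le_mul_of_nonneg_left _ (by positivity)
    exact (moment_le D Y).trans (mul_le_mul_of_nonneg_left (hE D Y hD3) (Nat.cast_nonneg _))
  set W : ℝ := 3 / 2 * (C * Real.log (D : ℕ)) with hWdef
  have hlogD0 : 0 ≤ Real.log (D : ℕ) := Real.log_natCast_nonneg D
  have hW0 : 0 ≤ W := by positivity
  have h7 : X ^ (m + 1) ≤ (E * W ^ d * (#S : ℝ) ^ 2) ^ (m + 1) := by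
    calc X ^ (m + 1) ≤ (#S.offDiag : ℝ) ^ m *
          ∑ x ∈ S.offDiag, (gg (2 * Nat.dist x.1 x.2) ^ d) ^ (m + 1) := h1
      _ ≤ ((#S : ℝ) ^ 2) ^ m * (2 * #S * ((3 / 2 : ℝ) ^ D * (Y * (C * Real.log (D : ℕ)) ^ D))) := by
          apply mul_le_mul
          · gcongr
          · refine h3.trans (h5.trans ?_)
            apply mul_le_mul_of_nonneg_left h6 (by positivity)
          · apply Finset.sum_nonneg
            intro x _
            exact pow_nonneg (pow_nonneg (hg0 _) _) _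
          · positivity
      _ = ((#S : ℝ) ^ 2) ^ m * (W ^ D * #S * (2 * Y)) := by
          rw [hWdef, mul_pow (3 / 2 : ℝ)]
          ring
      _ ≤ ((#S : ℝ) ^ 2) ^ m * (W ^ D * #S * (E ^ (m + 1) * #S)) := by
          gcongr
      _ = (E * W ^ d * (#S : ℝ) ^ 2) ^ (m + 1) := by
          rw [hD, pow_mul]
          simp only [mul_pow]
          ring
  have h8 : X ≤ E * W ^ d * (#S : ℝ) ^ 2 :=
    le_of_pow_le_pow_left₀ (by omega) (by positivity) h7
  refine h8.trans ?_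
  have h9 : W ≤ 3 / 2 * C * (1 + Real.log d) * Real.log ((m + 1 : ℕ) : ℝ) := by
    rw [hWdef, hD]
    push_cast
    rw [Real.log_mul (by positivity) (by positivity)]
    push_cast at hlogk
    have h10 : Real.log d ≤ Real.log d * Real.log ((m : ℝ) + 1) := by nlinarith
    have h11 : 0 ≤ 3 / 2 * C := by linarith
    nlinarith
  gcongr

end Pool.Agent.Helper29.BE
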